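import Pool.Agent.Helper80.HD.GoalsA
import Pool.Agent.Helper80.HD.GoalsB

set_option autoImplicit false

open MvPolynomial Filter Topology

noncomputable section

namespace Pool.Agent.Helper35.HD

open _root_.Pool.Agent.Helper80.HD

theorem ratioField_eq (K : Type) [Field K] [Algebra K ℂ] {N : ℕ} (x : Fin (N + 1) → ℂ)
    (j0 : Fin (N + 1)) (h0 : x j0 ≠ 0) :
    ratioField K x = IntermediateField.adjoin K (Set.range (nrm x j0)) := by
  apply le_antisymm
  · refine IntermediateField.adjoin_le_iff.2 ?_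
    rintro c ⟨i, j, rfl⟩
    have hi : nrm x j0 i ∈ IntermediateField.adjoin K (Set.range (nrm x j0)) :=
      IntermediateField.subset_adjoin K _ (Set.mem_range_self i)
    have hj : nrm x j0 j ∈ IntermediateField.adjoin K (Set.range (nrm x j0)) :=
      IntermediateField.subset_adjoin K _ (Set.mem_range_self j)
    have : x i / x j = nrm x j0 i / nrm x j0 j := by
      unfold nrm
      rw [div_div_div_cancel_right₀ h0]
    rw [this]
    exact div_mem hi hj
  · refine IntermediateField.adjoin_le_iff.2 ?_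
    rintro _ ⟨i, rfl⟩
    exact IntermediateField.subset_adjoin K _ ⟨i, j0, rfl⟩

theorem nrm_mem (K : Type) [Field K] [Algebra K ℂ] {N : ℕ} (x : Fin (N + 1) → ℂ)
    (j0 i : Fin (N + 1)) : nrm x j0 i ∈ ratioField K x :=
  IntermediateField.subset_adjoin K _ ⟨i, j0, rfl⟩

theorem rel_eq (K : Type) [Field K] [Algebra K ℂ] (L F : IntermediateField K ℂ) {N : ℕ}
    (x : Fin (N + 1) → ℂ) (j0 : Fin (N + 1)) (h0 : x j0 ≠ 0) :
    (IntermediateField.adjoin L (Set.range (nrm x j0))).relfinrank (FF K L F) =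
      (L ⊔ ratioField K x).relfinrank (L ⊔ F) := by
  have h1 : (IntermediateField.adjoin L (Set.range (nrm x j0))).restrictScalars K =
      L ⊔ ratioField K x := by
    rw [ratioField_eq K x j0 h0, IntermediateField.restrictScalars_adjoin_eq_sup]
  have h2 : (FF K L F).restrictScalars K = L ⊔ F := by
    rw [FF, IntermediateField.restrictScalars_adjoin_eq_sup, IntermediateField.adjoin_self]
  rw [← h1, ← h2]
  rfl

theorem sub_homog (K : Type) [Field K] {k N : ℕ} {R : Type} [CommRing R] [Algebra K R]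
    (u : Fin k × Fin (N + 1) → R) (P : MvPolynomial (Fin (k + 1) × Fin (N + 1)) K)
    (hP : MultiHomog (fun i => bdeg i P) P) : (sub K u P).IsHomogeneous (bdeg 0 P) := by
  have h1 : sub K u P = ∑ s ∈ P.support, sub K u (monomial s (P.coeff s)) := by
    rw [← map_sum, support_sum_monomial_coeff]
  rw [h1]
  refine IsHomogeneous.sum _ _ _ fun s hs => ?_
  have h2 : sub K u (monomial s (P.coeff s)) =
      C (algebraMap K R (P.coeff s)) * ∏ q, (Fin.cases (motive := fun _ => MvPolynomial (Fin (N + 1)) R)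
        (X q.2) (fun i => C (u (i, q.2))) q.1) ^ s q := by
    unfold sub
    rw [aeval_monomial, Finsupp.prod_fintype _ _ (fun _ => pow_zero _)]
    rfl
  rw [h2, Fintype.prod_prod_type, Fin.prod_univ_succ]
  simp only [Fin.cases_zero, Fin.cases_succ]
  have h3 : bdeg 0 P = 0 + (∑ j, s (0, j) + 0) := by
    rw [add_zero, zero_add]
    exact (hP s hs 0).symm
  rw [h3]
  refine (isHomogeneous_C _ _).mul (IsHomogeneous.mul ?_ ?_)
  · refine IsHomogeneous.prod _ _ _ fun j _ => ?_
    have := (isHomogeneous_X R j).pow (s (0, j))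
    rwa [one_mul] at this
  · have h4 : (∏ i : Fin k, ∏ j : Fin (N + 1), (C (u (i, j)) : MvPolynomial (Fin (N + 1)) R) ^ s (i.succ, j)) =
        C (∏ i : Fin k, ∏ j : Fin (N + 1), u (i, j) ^ s (i.succ, j)) := by
      simp [map_prod]
    rw [h4]
    exact isHomogeneous_C _ _

theorem tower (hGENEX : S_GENEX) (hIND : S_IND) (hFIN : S_FIN) (hRES : S_RES) (hHOM : S_HOM)
    (hASS : S_ASS) (hDEGX : S_DEGX) (hTDG : S_TDG) (hNF : S_NF) (hNFT : S_NFT) : S_TOWER := by
  intro K _ _ _ F k N z hFG htr hbig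
  obtain ⟨c, hc⟩ := hGENEX K F hFG (Fin (k + 1) × Fin (N + 1))
  have hp : ∀ i, ∃ j, z i j ≠ 0 := fun i => Function.ne_iff.1 (hbig i).1
  choose p hp using hp
  have hc' : AlgebraicIndependent F (fun q : Fin k × Fin (N + 1) => c (q.1.succ, q.2)) := by
    refine hc.comp (fun q : Fin k × Fin (N + 1) => (q.1.succ, q.2)) ?_
    rintro ⟨a, b⟩ ⟨a', b'⟩ h
    simp only [Prod.mk.injEq, Fin.succ_inj] at h
    rw [h.1, h.2]
  obtain ⟨u, hu⟩ : ∃ u : Fin k × Fin (N + 1) → ℂ, u = gen z p (fun q => c (q.1.succ, q.2)) := ⟨_, rfl⟩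
  have hind : AlgebraicIndependent K u := by
    rw [hu]
    exact hIND K F k k N z p _ hFG htr le_rfl hp hbig hc'
  have hfd : FiniteDimensional (LK K u) (FF K (LK K u) F) := by
    rw [hu]
    exact hFIN K F k N z p _ hFG htr hp hbig hc'
  refine ⟨u, hind, hfd, ?_⟩
  intro x j0 hx h0
  obtain ⟨hfE, A, hA, hsub⟩ := hASS K F k N x z j0 p c hFG htr hbig hx h0 hp hc u hu
    (IntermediateField.adjoin (LK K u) (Set.range (nrm x j0))) rfl
  obtain ⟨hdeg, -⟩ := hDEGX K F k N x z j0 p c hFG htr hbig hx h0 hp hc u hu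
  set E := IntermediateField.adjoin (LK K u) (Set.range (nrm x j0)) with hE
  have hle : E ≤ FF K (LK K u) F := by
    refine IntermediateField.adjoin_le_iff.2 ?_
    rintro _ ⟨i, rfl⟩
    exact IntermediateField.subset_adjoin _ _ (hx.2.1 (nrm_mem K x j0 i))
  have hmem : ∀ j, nrm x j0 j ∈ E := fun j =>
    IntermediateField.subset_adjoin _ _ (Set.mem_range_self j)
  have hnft := hNFT (LK K u) E (FF K (LK K u) F) N (nrm x j0) hle hmem
  have hrel : E.relfinrank (FF K (LK K u) F) =
      (ratioFields K (Fin.cons x z : Fin (k + 1) → Fin (N + 1) → ℂ)).relfinrank F := by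
    rw [hE, rel_eq K (LK K u) F x j0 h0, hdeg]
  constructor
  · refine ⟨A ^ (E.relfinrank (FF K (LK K u) F)), pow_ne_zero _ hA, ?_⟩
    rw [hnft, cyc, map_pow, hsub, hrel, mul_pow, C_pow]
  · have hZ : ∀ i, Big K F ((Fin.cons x z : Fin (k + 1) → Fin (N + 1) → ℂ) i) := by
      intro i
      refine Fin.cases ?_ (fun i => ?_) i
      · exact hx
      · exact hbig i
    obtain ⟨hR, hirr, -⟩ := hRES K F k N (Fin.cons x z) hFG htr hZ
    have hmh := hHOM K (k + 1) N (Fin.cons x z) _ hirr.ne_zero hR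
    have h1 := sub_homog K (uL K u) _ hmh
    obtain ⟨-, -, hnfh, -, hnf0⟩ := hNF (LK K u) E N (toE E (nrm x j0))
    have hne : toE E (nrm x j0) ≠ 0 := by
      refine Function.ne_iff.2 ⟨j0, ?_⟩
      unfold toE
      rw [dif_pos (hmem j0)]
      intro h
      have := congrArg Subtype.val h
      simp [nrm, h0] at this
    have h2 : (C A * normForm (LK K u) E (toE E (nrm x j0))).IsHomogeneous
        (Module.finrank (LK K u) E) := by
      have := (isHomogeneous_C (Fin (N + 1)) A).mul hnfh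
      rwa [zero_add] at this
    have hne2 : C A * normForm (LK K u) E (toE E (nrm x j0)) ≠ 0 :=
      mul_ne_zero (by simpa using hA) (hnf0 hne)
    rw [← hsub] at h2 hne2
    have h3 : bdeg 0 (resForm K (Fin.cons x z : Fin (k + 1) → Fin (N + 1) → ℂ)) =
        Module.finrank (LK K u) E := h1.inj_right h2 hne2
    obtain ⟨-, -, hpow, -⟩ := hTDG K (k + 1) N _ _ hirr.ne_zero hirr.ne_zero
    rw [cyc, hpow, h3, ← hrel, mul_comm]
    exact IntermediateField.finrank_bot_mul_relfinrank hle

end Pool.Agent.Helper35.HD
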