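import Pool.Agent.Helper4.HD.Goals

/-!
Project SQ (MP_bb32d1_al), lower half of Haiman's theorem, Dunkl block: packet SNG (helper35).
-/

set_option autoImplicit false

namespace Pool.Agent.Helper35.HD

open Pool.Agent.Helper4.HD MvPolynomial Finset

/-- **SNG** -/
theorem sng (hR : S_REL) (hG : S_GG) (hD : S_DGG) : S_SNG := by
  intro n i j
  have D1 : ∀ i : Fin n, Dk i (1 : P n) = 0 := by
    intro i
    have h := (hR n i 1).2.2.2.2.1 1
    rwa [C_1] at h
  have hg : ∀ (i : Fin n) (m : ℕ), Dk i (gg n (m + 1)) = - (cc n • ff i m) := by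
    intro i m
    have h := (hR n i (gg n (m + 1))).2.2.2.2.2.1 (fun σ => (hG n (m + 1) σ).1) 1
    rw [mul_one, mul_one, D1, mul_zero, add_zero, hD] at h
    exact h
  have hff : ∀ (i : Fin n) (m : ℕ), ff i (m + 1) = X i * ff i m + gg n (m + 1) :=
    fun i m => ((hG n m 1).2.2.1 i).2
  have hf0 : ∀ i : Fin n, ff i 0 = 1 := fun i => ((hG n 0 1).2.2.1 i).1
  have hA : ∀ i j : Fin n, i ≠ j → ∀ m, Dk i (ff j m) = 0 := by
    intro i j hij m
    induction m with
    | zero => rw [hf0, D1]
    | succ m ih =>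
      rw [hff, map_add, (hR n i (ff j m)).2.1 j hij, ih, hg, (hG n m (Equiv.swap i j)).2.1 j,
        Equiv.swap_apply_right, mul_zero, zero_add, add_neg_cancel]
  have hstep : ∀ (i : Fin n) (m : ℕ), Dk i (ff i (m + 1))
      = X i * Dk i (ff i m) + ff i m - (cc n * n - m) • gg n m := by
    intro i m
    have h1 : ∑ j ∈ univ.erase i, sw (Equiv.swap i j) (ff i m) + ff i m = ∑ j, ff j m := by
      rw [← Finset.sum_erase_add _ _ (Finset.mem_univ i)]
      congr 1
      refine Finset.sum_congr rfl fun j _ => ?_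
      rw [(hG n m (Equiv.swap i j)).2.1 i, Equiv.swap_apply_left]
    have h2 : cc n • ∑ j ∈ univ.erase i, sw (Equiv.swap i j) (ff i m) + cc n • ff i m
        = (cc n * n - m) • gg n m := by
      rw [← smul_add, h1]
      exact (hG n m 1).2.2.2.2
    rw [hff, map_add, (hR n i (ff i m)).1, hg, ← h2]
    abel
  have hB : ∀ (i : Fin n) (m : ℕ), Dk i (ff i (m + 1))
      = ((m : ℂ) + 1 - cc n * n) • ff i m := by
    intro i m
    induction m with
    | zero =>
      rw [hstep, hf0, D1, mul_zero, zero_add]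
      have h0 : gg n 0 = 1 := by rw [gg]
      rw [h0, Nat.cast_zero, sub_zero, zero_add, sub_smul, one_smul]
    | succ m ih =>
      rw [hstep, ih]
      have h1 : X i * ((m : ℂ) + 1 - cc n * n) • ff i m
          = ((m : ℂ) + 1 - cc n * n) • (ff i (m + 1) - gg n (m + 1)) := by
        rw [hff i m, add_sub_cancel_right, mul_smul_comm]
      rw [h1, Nat.cast_succ]
      module
  have hC : ∀ i j : Fin n, Dk i (ff j (n + 1)) = 0 := by
    intro i j
    by_cases hij : i = j
    · subst hij
      have hn : (n : ℂ) ≠ 0 := by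
        have := i.pos
        exact Nat.cast_ne_zero.2 (by omega)
      rw [hB]
      have h1 : cc n * n = (n : ℂ) + 1 := by
        unfold cc
        rw [div_mul_cancel₀ _ hn]
      rw [h1, sub_self, zero_smul]
    · exact hA i j hij _
  refine ⟨fun hij => hA i j hij, hB i, hC i j, ?_⟩
  have h1 : dtot n (ff j (n + 1)) = 0 := by
    rw [← (hR n i (ff j (n + 1))).2.2.2.1]
    exact Finset.sum_eq_zero fun k _ => hC k j
  unfold Tk
  rw [LinearMap.sub_apply, LinearMap.smul_apply, h1, hC, smul_zero, sub_zero]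

end Pool.Agent.Helper35.HD
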