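import Pool.Agent.Helper44.HD.GoalsQ

/-!
# Project HD: lemmas on `gm` and on rational functions
-/

set_option autoImplicit false
set_option linter.unusedSectionVars false

open Finset
open scoped TensorProduct

namespace Pool.Agent.Helper35.HD

open Pool.Agent.Helper44.HD

section gml

variable {k G R : Type} [Field k] [Group G] [Ring R] [Algebra k R]
  [MulSemiringAction G R] [SMulCommClass G k R]

theorem gm_comp (p q : G × G) (x : Gam k R) : gm k R (p * q) x = gm k R p (gm k R q x) := by
  induction x using TensorProduct.induction_on with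
  | zero => simp
  | tmul r s =>
    change gm k R (p * q) (r ⊗ₜ MulOpposite.op s.unop) =
      gm k R p (gm k R q (r ⊗ₜ MulOpposite.op s.unop))
    rw [gm_tmul, gm_tmul, gm_tmul, Prod.fst_mul, Prod.snd_mul, mul_smul, mul_smul]
  | add x y hx hy => rw [map_add, map_add, map_add, hx, hy]

theorem gm_one (x : Gam k R) : gm k R (1 : G × G) x = x := by
  induction x using TensorProduct.induction_on with
  | zero => simp
  | tmul r s =>
    change gm k R (1 : G × G) (r ⊗ₜ MulOpposite.op s.unop) = r ⊗ₜ MulOpposite.op s.unop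
    rw [gm_tmul, Prod.fst_one, Prod.snd_one, one_smul, one_smul]
  | add x y hx hy => rw [map_add, hx, hy]

theorem gm_inv (p : G × G) (x : Gam k R) : gm k R p (gm k R p⁻¹ x) = x := by
  rw [← gm_comp, mul_inv_cancel, gm_one]

end gml

section rfl

variable {k G : Type} [Field k] [Group G] (D : RedGroup k G)
variable {M M' : Type} [AddCommGroup M] [Module k M] [AddCommGroup M'] [Module k M']

theorem O_fst {f : G → k} (hf : f ∈ D.O) : (fun p : G × G => f p.1) ∈ D.pr.O := by
  change (fun p : G × G => f p.1) ∈ D.O2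
  refine Submodule.subset_span ⟨f, hf, 1, D.O.one_mem, ?_⟩
  funext p
  simp

theorem O_snd {f : G → k} (hf : f ∈ D.O) : (fun p : G × G => f p.2) ∈ D.pr.O := by
  change (fun p : G × G => f p.2) ∈ D.O2
  refine Submodule.subset_span ⟨1, D.O.one_mem, f, hf, ?_⟩
  funext p
  simp

theorem RF_fst {F : G → M} (hF : F ∈ D.RF M) : (fun p : G × G => F p.1) ∈ D.pr.RF M := by
  refine RF_ind D (p := fun F => (fun p : G × G => F p.1) ∈ D.pr.RF M) ?_ ?_ ?_ hF
  · intro f hf m
    exact RF_mk D.pr (O_fst D hf) m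
  · exact (D.pr.RF M).zero_mem
  · intro F F' h h'
    exact (D.pr.RF M).add_mem h h'

theorem RF_snd {F : G → M} (hF : F ∈ D.RF M) : (fun p : G × G => F p.2) ∈ D.pr.RF M := by
  refine RF_ind D (p := fun F => (fun p : G × G => F p.2) ∈ D.pr.RF M) ?_ ?_ ?_ hF
  · intro f hf m
    exact RF_mk D.pr (O_snd D hf) m
  · exact (D.pr.RF M).zero_mem
  · intro F F' h h'
    exact (D.pr.RF M).add_mem h h'

theorem RF_pi {ι : Type} [Fintype ι] [DecidableEq ι] {F : G → ι → M}
    (hF : ∀ i, (fun g => F g i) ∈ D.RF M) : F ∈ D.RF (ι → M) := by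
  have h1 := RF_sum D univ (F := fun (i : ι) (g : G) => LinearMap.single k (fun _ : ι => M) i (F g i))
    fun i _ => RF_map D (LinearMap.single k (fun _ : ι => M) i) (hF i)
  have e : (fun g => ∑ i, LinearMap.single k (fun _ : ι => M) i (F g i)) = F := by
    funext g
    simp only [LinearMap.coe_single]
    exact Finset.univ_sum_single (F g)
  rwa [e] at h1

/-- the integral over the square of a product -/
theorem HI_prod {F : G → M} {F' : G → M'} {m : M} {m' : M'}
    (h : D.HI F m) (h' : D.HI F' m') :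
    D.pr.HI (fun p : G × G => F p.1 ⊗ₜ[k] F' p.2) (m ⊗ₜ[k] m') := by
  intro l
  change l (m ⊗ₜ[k] m') = D.I fun g => D.I fun g' => l (F g ⊗ₜ[k] F' g')
  have e1 : ∀ g, (D.I fun g' => l (F g ⊗ₜ[k] F' g')) = l (F g ⊗ₜ[k] m') := by
    intro g
    exact (h' (l ∘ₗ TensorProduct.mk k M M' (F g))).symm
  simp only [e1]
  exact h (l ∘ₗ (TensorProduct.mk k M M').flip m')

end rfl

section rg

variable {k G R : Type} [Field k] [Group G] (D : RedGroup k G) [Ring R] [Algebra k R]
  [MulSemiringAction G R] [SMulCommClass G k R]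

theorem RF_gm (hR : RatR D R) (x : Gam k R) : (fun p => gm k R p x) ∈ D.pr.RF (Gam k R) := by
  induction x using TensorProduct.induction_on with
  | zero =>
    simp only [map_zero]
    exact (D.pr.RF _).zero_mem
  | tmul r s =>
    have h1 := RF_bil D.pr (TensorProduct.mk k R Rᵐᵒᵖ) (RF_fst D (hR r))
      (RF_snd D (RF_map D (MulOpposite.opLinearEquiv k : R ≃ₗ[k] Rᵐᵒᵖ).toLinearMap (hR s.unop)))
    exact h1
  | add x y hx hy =>
    simp only [map_add]
    exact RF_add D.pr hx hy

end rg

end Pool.Agent.Helper35.HD
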