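import Pool.Agent.Helper35.HD.GmLem

/-!
# Project HD: packet QF
-/

set_option autoImplicit false
set_option linter.unusedSectionVars false

open Finset
open scoped TensorProduct

namespace Pool.Agent.Helper35.HD

open Pool.Agent.Helper44.HD

section

variable {k G R p q : Type} [Field k] [Group G] [Ring R] [Algebra k R]
  [MulSemiringAction G R] [SMulCommClass G k R] {D : RedGroup k G}
  [Fintype p] [DecidableEq p] [Fintype q] [DecidableEq q] (α : MRep D p) (β : MRep D q)

theorem fabF_apply (g h : G) (x : FM p q k R) (a : p) (b : q) : fabF α β g h x a b =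
    ∑ a', ∑ b', (α.m g a a' * β.m h b b') • gm k R (g, h) (x a' b') := rfl

theorem FM_ext {x y : FM p q k R} (h : ∀ a b, x a b = y a b) : x = y :=
  funext fun a => funext fun b => h a b

theorem fabF_one (x : FM p q k R) : fabF α β (1 : G) (1 : G) x = x := by
  refine FM_ext fun a b => ?_
  rw [fabF_apply, α.one, β.one]
  have e : ∀ a' b', ((1 : Matrix p p k) a a' * (1 : Matrix q q k) b b') •
      gm k R ((1 : G), (1 : G)) (x a' b') = if a = a' then (if b = b' then x a' b' else 0) else 0 := by
    intro a' b'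
    have h1 : gm k R ((1 : G), (1 : G)) (x a' b') = x a' b' := gm_one (x a' b')
    rw [h1, Matrix.one_apply, Matrix.one_apply]
    split_ifs <;> simp
  simp only [e]
  simp

theorem fabF_mul (g h g' h' : G) (x : FM p q k R) :
    fabF α β (g * g') (h * h') x = fabF α β g h (fabF α β g' h' x) := by
  refine FM_ext fun a b => ?_
  rw [fabF_apply, fabF_apply]
  have e1 : ∀ c d, gm k R (g, h) (fabF α β g' h' x c d) =
      ∑ a', ∑ b', (α.m g' c a' * β.m h' d b') • gm k R (g * g', h * h') (x a' b') := by
    intro c d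
    rw [fabF_apply, map_sum]
    refine sum_congr rfl fun a' _ => ?_
    rw [map_sum]
    refine sum_congr rfl fun b' _ => ?_
    rw [map_smul, ← gm_comp]
    rfl
  simp only [e1, smul_sum, smul_smul]
  have e2 : ∀ a' b', (α.m (g * g') a a' * β.m (h * h') b b') • gm k R (g * g', h * h') (x a' b') =
      ∑ c, ∑ d, (α.m g a c * β.m h b d * (α.m g' c a' * β.m h' d b')) •
        gm k R (g * g', h * h') (x a' b') := by
    intro a' b'
    rw [α.mul, β.mul, Matrix.mul_apply, Matrix.mul_apply, sum_mul_sum, sum_smul]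
    refine sum_congr rfl fun c _ => ?_
    rw [sum_smul]
    refine sum_congr rfl fun d _ => ?_
    congr 1
    ring
  simp only [e2]
  calc ∑ a', ∑ b', ∑ c, ∑ d, (α.m g a c * β.m h b d * (α.m g' c a' * β.m h' d b')) •
        gm k R (g * g', h * h') (x a' b')
      = ∑ a', ∑ c, ∑ b', ∑ d, (α.m g a c * β.m h b d * (α.m g' c a' * β.m h' d b')) •
        gm k R (g * g', h * h') (x a' b') := sum_congr rfl fun a' _ => sum_comm
    _ = ∑ c, ∑ a', ∑ b', ∑ d, (α.m g a c * β.m h b d * (α.m g' c a' * β.m h' d b')) •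
        gm k R (g * g', h * h') (x a' b') := sum_comm
    _ = ∑ c, ∑ a', ∑ d, ∑ b', (α.m g a c * β.m h b d * (α.m g' c a' * β.m h' d b')) •
        gm k R (g * g', h * h') (x a' b') :=
        sum_congr rfl fun c _ => sum_congr rfl fun a' _ => sum_comm
    _ = ∑ c, ∑ d, ∑ a', ∑ b', (α.m g a c * β.m h b d * (α.m g' c a' * β.m h' d b')) •
        gm k R (g * g', h * h') (x a' b') := sum_congr rfl fun c _ => sum_comm

/-- the action as a linear map -/
noncomputable def fabL (P : G × G) : FM p q k R →ₗ[k] FM p q k R where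
  toFun x := fabF α β P.1 P.2 x
  map_add' x y := by
    refine FM_ext fun a b => ?_
    rw [FM_add, fabF_apply, fabF_apply, fabF_apply, ← sum_add_distrib]
    refine sum_congr rfl fun a' _ => ?_
    rw [← sum_add_distrib]
    refine sum_congr rfl fun b' _ => ?_
    rw [FM_add, map_add, smul_add]
  map_smul' c x := by
    refine FM_ext fun a b => ?_
    rw [RingHom.id_apply, FM_smulk, fabF_apply, fabF_apply, smul_sum]
    refine sum_congr rfl fun a' _ => ?_
    rw [smul_sum]
    refine sum_congr rfl fun b' _ => ?_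
    rw [FM_smulk, map_smul, smul_comm]

end

theorem qf : StmtQF := by
  intro k G R p q _ _ _ _ _ _ D _ _ _ _ α β hR
  refine ⟨⟨⟨⟨fabL α β, ?_⟩, ?_⟩, ?_, ?_⟩, ?_⟩
  · refine LinearMap.ext fun x => ?_
    exact fabF_one α β x
  · intro P Q
    refine LinearMap.ext fun x => ?_
    exact fabF_mul α β P.1 P.2 Q.1 Q.2 x
  · intro P c x
    refine FM_ext fun a b => ?_
    change fabF α β P.1 P.2 (c • x) a b = gm k R P c * fabF α β P.1 P.2 x a b
    rw [fabF_apply, fabF_apply, mul_sum]
    refine sum_congr rfl fun a' _ => ?_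
    rw [mul_sum]
    refine sum_congr rfl fun b' _ => ?_
    rw [FM_smul, map_mul, mul_smul_comm]
  · intro x
    have h1 : (fun P => (fabL α β P x : p → q → Gam k R)) ∈ D.pr.RF (p → q → Gam k R) := by
      refine RF_pi D.pr fun a => ?_
      refine RF_pi D.pr fun b => ?_
      change (fun P : G × G => ∑ a', ∑ b', (α.m P.1 a a' * β.m P.2 b b') •
        gm k R P (x a' b')) ∈ D.pr.RF (Gam k R)
      refine RF_sum D.pr univ fun a' _ => RF_sum D.pr univ fun b' _ => ?_
      refine RF_mulf D.pr (f := fun P : G × G => α.m P.1 a a' * β.m P.2 b b') ?_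
        (RF_gm D hR (x a' b'))
      exact D.pr.O.mul_mem (O_fst D (α.rat a a')) (O_snd D (β.rat b b'))
    exact h1
  · intro g h x
    rfl

end Pool.Agent.Helper35.HD
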