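import Pool.Agent.Helper35.HD.GmLem

/-!
# Project HD: packet QN
-/

set_option autoImplicit false
set_option linter.unusedSectionVars false

open Finset
open scoped TensorProduct

namespace Pool.Agent.Helper35.HD

open Pool.Agent.Helper44.HD

section theta

variable {k R p q v w : Type} [Field k] [Ring R] [Algebra k R]
  [Fintype p] [DecidableEq p] [Fintype q] [DecidableEq q]
  [Fintype v] [DecidableEq v] [Fintype w] [DecidableEq w]

variable (k R p q v w) in
/-- the bilinear map `(A, B) ↦ A_ia ⊗ B_bj` -/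
noncomputable def ttL : Matrix w p R →ₗ[k] Matrix q v R →ₗ[k] (w → v → FM p q k R) :=
  LinearMap.mk₂ k (fun A B i j a b => A i a ⊗ₜ[k] MulOpposite.op (B b j))
    (fun A A' B => by
      funext i j a b
      exact TensorProduct.add_tmul _ _ _)
    (fun c A B => by
      funext i j a b
      exact (TensorProduct.smul_tmul' c (A i a) (MulOpposite.op (B b j))).symm)
    (fun A B B' => by
      funext i j a b
      exact TensorProduct.tmul_add _ _ _)
    (fun c A B => by
      funext i j a b
      exact TensorProduct.tmul_smul c (A i a) (MulOpposite.op (B b j)))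

variable (k R p q v w) in
/-- the linear map `A ⊗ B ↦ A_ia ⊗ B_bj` -/
noncomputable def Th : (Matrix w p R ⊗[k] Matrix q v R) →ₗ[k] (w → v → FM p q k R) :=
  TensorProduct.lift (ttL k R p q v w)

theorem Th_tmul (A : Matrix w p R) (B : Matrix q v R) (i : w) (j : v) (a : p) (b : q) :
    Th k R p q v w (A ⊗ₜ B) i j a b = A i a ⊗ₜ[k] MulOpposite.op (B b j) := by
  unfold Th
  rw [TensorProduct.lift.tmul]
  rfl

variable (k R p q v w) in
/-- the coordinates -/
noncomputable def evL (i : w) (j : v) (a : p) (b : q) : (w → v → FM p q k R) →ₗ[k] Gam k R where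
  toFun Y := Y i j a b
  map_add' _ _ := rfl
  map_smul' _ _ := rfl

variable (k R p q v w) in
/-- `r ⊗ s ↦ E_ia r ⊗ E_bj s` -/
noncomputable def pl (i : w) (j : v) (a : p) (b : q) :
    Gam k R →ₗ[k] (Matrix w p R ⊗[k] Matrix q v R) :=
  TensorProduct.map (Matrix.singleLinearMap k i a)
    (Matrix.singleLinearMap k b j ∘ₗ (MulOpposite.opLinearEquiv k : R ≃ₗ[k] Rᵐᵒᵖ).symm.toLinearMap)

variable (k R p q v w) in
/-- the inverse of `Th` -/
noncomputable def Ps : (w → v → FM p q k R) →ₗ[k] (Matrix w p R ⊗[k] Matrix q v R) :=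
  ∑ i, ∑ j, ∑ a, ∑ b, pl k R p q v w i j a b ∘ₗ evL k R p q v w i j a b

theorem Ps_apply (Y : w → v → FM p q k R) : Ps k R p q v w Y =
    ∑ i, ∑ j, ∑ a, ∑ b, pl k R p q v w i j a b (Y i j a b) := by
  unfold Ps
  simp only [LinearMap.sum_apply, LinearMap.comp_apply]
  rfl

theorem Ps_Th (z : Matrix w p R ⊗[k] Matrix q v R) : Ps k R p q v w (Th k R p q v w z) = z := by
  induction z using TensorProduct.induction_on with
  | zero => simp
  | add x y hx hy => rw [map_add, map_add, hx, hy]
  | tmul A B =>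
    rw [Ps_apply]
    have e : ∀ i j a b, pl k R p q v w i j a b (Th k R p q v w (A ⊗ₜ B) i j a b) =
        Matrix.single i a (A i a) ⊗ₜ[k] Matrix.single b j (B b j) := by
      intro i j a b
      rw [Th_tmul]
      unfold pl
      rw [TensorProduct.map_tmul]
      rfl
    simp only [e]
    have hAB : A ⊗ₜ[k] B = ∑ i, ∑ a, ∑ b, ∑ j,
        Matrix.single i a (A i a) ⊗ₜ[k] Matrix.single b j (B b j) := by
      calc A ⊗ₜ[k] B = (∑ i, ∑ a, Matrix.single i a (A i a)) ⊗ₜ[k]
            (∑ b, ∑ j, Matrix.single b j (B b j)) := by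
            rw [← Matrix.matrix_eq_sum_single A, ← Matrix.matrix_eq_sum_single B]
        _ = _ := by
            rw [TensorProduct.sum_tmul]
            refine sum_congr rfl fun i _ => ?_
            rw [TensorProduct.sum_tmul]
            refine sum_congr rfl fun a _ => ?_
            rw [TensorProduct.tmul_sum]
            refine sum_congr rfl fun b _ => ?_
            rw [TensorProduct.tmul_sum]
    rw [hAB]
    refine sum_congr rfl fun i _ => ?_
    rw [sum_comm]
    refine sum_congr rfl fun a _ => ?_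
    exact sum_comm

theorem Th_pl (i i' : w) (j j' : v) (a a' : p) (b b' : q) (x : Gam k R) :
    Th k R p q v w (pl k R p q v w i j a b x) i' j' a' b' =
      if i = i' then (if j = j' then (if a = a' then (if b = b' then x else 0) else 0) else 0)
        else 0 := by
  induction x using TensorProduct.induction_on with
  | zero =>
    rw [map_zero, map_zero]
    split_ifs <;> rfl
  | add x y hx hy =>
    rw [map_add, map_add, Pi.add_apply, Pi.add_apply, FM_add, hx, hy]
    split_ifs <;> simp
  | tmul r s =>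
    unfold pl
    rw [TensorProduct.map_tmul, Th_tmul]
    have e1 : (Matrix.singleLinearMap k i a : R →ₗ[k] Matrix w p R) r i' a' =
        if i = i' ∧ a = a' then r else 0 := by
      change Matrix.single i a r i' a' = _
      rw [Matrix.single_apply]
    have e2 : (Matrix.singleLinearMap k b j ∘ₗ
        (MulOpposite.opLinearEquiv k : R ≃ₗ[k] Rᵐᵒᵖ).symm.toLinearMap) s b' j' =
        if b = b' ∧ j = j' then s.unop else 0 := by
      change Matrix.single b j s.unop b' j' = _
      rw [Matrix.single_apply]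
    rw [e1, e2]
    by_cases h1 : i = i' <;> by_cases h2 : j = j' <;> by_cases h3 : a = a' <;>
      by_cases h4 : b = b' <;> simp [h1, h2, h3, h4]

theorem Th_Ps (Y : w → v → FM p q k R) : Th k R p q v w (Ps k R p q v w Y) = Y := by
  funext i' j' a' b'
  rw [Ps_apply]
  change evL k R p q v w i' j' a' b' (Th k R p q v w (∑ i, ∑ j, ∑ a, ∑ b,
    pl k R p q v w i j a b (Y i j a b))) = Y i' j' a' b'
  simp only [map_sum]
  have e : ∀ i j a b, evL k R p q v w i' j' a' b' (Th k R p q v w
      (pl k R p q v w i j a b (Y i j a b))) =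
      if i = i' then (if j = j' then (if a = a' then (if b = b' then Y i j a b else 0) else 0)
        else 0) else 0 := fun i j a b => Th_pl i i' j j' a a' b b' _
  simp only [e]
  simp

end theta

section act

variable {k G R p q v w u : Type} [Field k] [Group G] [Ring R] [Algebra k R]
  [MulSemiringAction G R] [SMulCommClass G k R] {D : RedGroup k G}
  [Fintype p] [DecidableEq p] [Fintype q] [DecidableEq q]
  [Fintype v] [DecidableEq v] [Fintype w] [DecidableEq w] [Fintype u] [DecidableEq u]

/-- the action of `G` on the matrices: `g ↦ W(g) (g • A) U(g⁻¹)` -/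
noncomputable def LD (R : Type) [Ring R] [Algebra k R] [MulSemiringAction G R]
    [SMulCommClass G k R] (U : MRep D u) (W : MRep D w) (g : G) :
    Matrix w u R →ₗ[k] Matrix w u R where
  toFun A := fun i a => ∑ i', ∑ a', (W.m g i i' * U.m g⁻¹ a' a) • (g • A i' a')
  map_add' A B := by
    funext i a
    change ∑ i', ∑ a', (W.m g i i' * U.m g⁻¹ a' a) • (g • (A i' a' + B i' a')) =
      (∑ i', ∑ a', (W.m g i i' * U.m g⁻¹ a' a) • (g • A i' a')) +
      ∑ i', ∑ a', (W.m g i i' * U.m g⁻¹ a' a) • (g • B i' a')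
    simp only [smul_add, sum_add_distrib]
  map_smul' c A := by
    funext i a
    change ∑ i', ∑ a', (W.m g i i' * U.m g⁻¹ a' a) • (g • (c • A i' a')) =
      c • ∑ i', ∑ a', (W.m g i i' * U.m g⁻¹ a' a) • (g • A i' a')
    simp only [smul_sum]
    refine sum_congr rfl fun i' _ => sum_congr rfl fun a' _ => ?_
    rw [smul_comm g c, smul_comm _ c]

theorem LD_apply (U : MRep D u) (W : MRep D w) (g : G) (A : Matrix w u R) (i : w) (a : u) :
    LD R U W g A i a = ∑ i', ∑ a', (W.m g i i' * U.m g⁻¹ a' a) • (g • A i' a') := rfl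

theorem LD_mul (U : MRep D u) (W : MRep D w) (g h : G) (A : Matrix w u R) :
    LD R U W (g * h) A = LD R U W g (LD R U W h A) := by
  funext i a
  rw [LD_apply, LD_apply]
  have e1 : ∀ c d, g • LD R U W h A c d =
      ∑ i', ∑ a', (W.m h c i' * U.m h⁻¹ a' d) • ((g * h) • A i' a') := by
    intro c d
    rw [LD_apply, smul_sum]
    refine sum_congr rfl fun i' _ => ?_
    rw [smul_sum]
    refine sum_congr rfl fun a' _ => ?_
    rw [smul_comm g (W.m h c i' * U.m h⁻¹ a' d), ← mul_smul g h]
  simp only [e1, smul_sum, smul_smul]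
  have e2 : ∀ i' a', (W.m (g * h) i i' * U.m (g * h)⁻¹ a' a) • ((g * h) • A i' a') =
      ∑ c, ∑ d, (W.m g i c * U.m g⁻¹ d a * (W.m h c i' * U.m h⁻¹ a' d)) •
        ((g * h) • A i' a') := by
    intro i' a'
    rw [mul_inv_rev, W.mul, U.mul, Matrix.mul_apply, Matrix.mul_apply, sum_mul_sum, sum_smul]
    refine sum_congr rfl fun c _ => ?_
    rw [sum_smul]
    refine sum_congr rfl fun d _ => ?_
    congr 1
    ring
  simp only [e2]
  calc ∑ i', ∑ a', ∑ c, ∑ d, (W.m g i c * U.m g⁻¹ d a * (W.m h c i' * U.m h⁻¹ a' d)) •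
        ((g * h) • A i' a')
      = ∑ i', ∑ c, ∑ a', ∑ d, (W.m g i c * U.m g⁻¹ d a * (W.m h c i' * U.m h⁻¹ a' d)) •
        ((g * h) • A i' a') := sum_congr rfl fun i' _ => sum_comm
    _ = ∑ c, ∑ i', ∑ a', ∑ d, (W.m g i c * U.m g⁻¹ d a * (W.m h c i' * U.m h⁻¹ a' d)) •
        ((g * h) • A i' a') := sum_comm
    _ = ∑ c, ∑ i', ∑ d, ∑ a', (W.m g i c * U.m g⁻¹ d a * (W.m h c i' * U.m h⁻¹ a' d)) •
        ((g * h) • A i' a') := sum_congr rfl fun c _ => sum_congr rfl fun i' _ => sum_comm
    _ = ∑ c, ∑ d, ∑ i', ∑ a', (W.m g i c * U.m g⁻¹ d a * (W.m h c i' * U.m h⁻¹ a' d)) •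
        ((g * h) • A i' a') := sum_congr rfl fun c _ => sum_comm

theorem mem_Hm_iff (U : MRep D u) (W : MRep D w) (A : Matrix w u R) :
    A ∈ Hm R U W ↔ ∀ g, LD R U W g A = A := by
  constructor
  · intro hA g
    funext i j
    have hA' : ∀ (i : w) (j : u), ∑ a, W.m g i a • (g • A a j) = ∑ b, U.m g b j • A i b := hA g
    rw [LD_apply, sum_comm]
    have e : ∀ a' i', (W.m g i i' * U.m g⁻¹ a' j) • (g • A i' a') =
        U.m g⁻¹ a' j • (W.m g i i' • (g • A i' a')) := by
      intro a' i'
      rw [smul_smul, mul_comm]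
    simp only [e, ← smul_sum, hA']
    have e2 : ∀ b, U.m g⁻¹ b j • ∑ c, U.m g c b • A i c = ∑ c, (U.m g c b * U.m g⁻¹ b j) • A i c := by
      intro b
      rw [smul_sum]
      exact sum_congr rfl fun c _ => by rw [smul_smul, mul_comm]
    simp only [e2]
    rw [sum_comm]
    simp only [← sum_smul, ← Matrix.mul_apply, ← U.mul, mul_inv_cancel, U.one]
    simp [Matrix.one_apply]
  · intro hA
    change ∀ (g : G) (i : w) (j : u), ∑ a, W.m g i a • (g • A a j) = ∑ b, U.m g b j • A i b
    intro g i j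
    have e : ∀ b, U.m g b j • A i b =
        ∑ a, ∑ c, (W.m g i a * (U.m g⁻¹ c b * U.m g b j)) • (g • A a c) := by
      intro b
      conv_lhs => rw [← hA g]
      rw [LD_apply, smul_sum]
      refine sum_congr rfl fun a _ => ?_
      rw [smul_sum]
      refine sum_congr rfl fun c _ => ?_
      rw [smul_smul]
      congr 1
      ring
    simp only [e]
    rw [sum_comm]
    refine sum_congr rfl fun a _ => ?_
    rw [sum_comm]
    have e2 : ∀ c, ∑ b, (W.m g i a * (U.m g⁻¹ c b * U.m g b j)) • (g • A a c) =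
        (W.m g i a * (1 : Matrix u u k) c j) • (g • A a c) := by
      intro c
      rw [← sum_smul, ← mul_sum, ← Matrix.mul_apply, ← U.mul, inv_mul_cancel, U.one]
    simp only [e2, Matrix.one_apply]
    simp

theorem LD_rat (hR : RatR D R) (U : MRep D u) (W : MRep D w) (A : Matrix w u R) :
    (fun g => LD R U W g A) ∈ D.RF (Matrix w u R) := by
  have h1 : (fun g => (LD R U W g A : w → u → R)) ∈ D.RF (w → u → R) := by
    refine RF_pi D fun i => ?_
    refine RF_pi D fun a => ?_
    change (fun g : G => ∑ i', ∑ a', (W.m g i i' * U.m g⁻¹ a' a) • (g • A i' a')) ∈ D.RF R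
    refine RF_sum D univ fun i' _ => RF_sum D univ fun a' _ => ?_
    refine RF_mulf D (f := fun g : G => W.m g i i' * U.m g⁻¹ a' a) ?_ (hR (A i' a'))
    exact D.O.mul_mem (W.rat i i') (D.inv_mem _ (U.rat a' a))
  exact h1

/-- the average -/
theorem LD_avg (hR : RatR D R) (U : MRep D u) (W : MRep D w) (A : Matrix w u R) :
    ∃ A' : Hm R U W, D.HI (fun g => LD R U W g A) A'.1 := by
  have h1 := int_spec D (LD_rat hR U W A)
  refine ⟨⟨D.int (fun g => LD R U W g A), ?_⟩, h1⟩
  rw [mem_Hm_iff]
  intro h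
  refine HI_uniq D ?_ h1
  have h2 : D.HI (fun g => LD R U W (h⁻¹ * g) A) (D.int fun g => LD R U W g A) :=
    HI_left D (LD_rat hR U W A) h1 h⁻¹
  have h3 := HI_map D (LD R U W h) h2
  have e : (fun g => LD R U W h (LD R U W (h⁻¹ * g) A)) = fun g => LD R U W g A := by
    funext g
    rw [← LD_mul, mul_inv_cancel_left]
  rwa [e] at h3

/-- the action of `G × G` on `Th (A ⊗ B)` -/
theorem key (α : MRep D p) (β : MRep D q) (V : MRep D v) (W : MRep D w)
    (X : EMod D R (FM p q k R)) (hX : ∀ g h x, X.π (g, h) x = fabF α β g h x)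
    (g h : G) (A : Matrix w p R) (B : Matrix q v R) (i : w) (j : v) :
    ∑ a, ∑ b, (W.m g i a * V.m h⁻¹ b j) • X.π (g, h) (Th k R p q v w (A ⊗ₜ B) a b) =
      Th k R p q v w (LD R α.dual W g A ⊗ₜ LD R V β h B) i j := by
  let opl : R →ₗ[k] Rᵐᵒᵖ := (MulOpposite.opLinearEquiv k : R ≃ₗ[k] Rᵐᵒᵖ).toLinearMap
  let mk := TensorProduct.mk k R Rᵐᵒᵖ
  funext a b
  have hL : (∑ i', ∑ j', (W.m g i i' * V.m h⁻¹ j' j) •
      X.π (g, h) (Th k R p q v w (A ⊗ₜ B) i' j')) a b =
      ∑ i', ∑ j', (W.m g i i' * V.m h⁻¹ j' j) • ∑ a', ∑ b', (α.m g a a' * β.m h b b') •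
        mk (g • A i' a') (opl (h • B b' j')) := by
    have e0 : ∀ (s : w → v → FM p q k R), (∑ i', ∑ j', s i' j') a b =
        ∑ i', ∑ j', s i' j' a b := by
      intro s
      let ev : FM p q k R →ₗ[k] Gam k R :=
        { toFun := fun x => x a b
          map_add' := fun _ _ => rfl
          map_smul' := fun _ _ => rfl }
      change ev (∑ i', ∑ j', s i' j') = ∑ i', ∑ j', ev (s i' j')
      simp only [map_sum]
    rw [e0]
    refine sum_congr rfl fun i' _ => sum_congr rfl fun j' _ => ?_
    rw [FM_smulk, hX]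
    congr 1
  have hR : Th k R p q v w (LD R α.dual W g A ⊗ₜ LD R V β h B) i j a b =
      ∑ i', ∑ a', ∑ b', ∑ j', ((W.m g i i' * α.m g a a') * (β.m h b b' * V.m h⁻¹ j' j)) •
        mk (g • A i' a') (opl (h • B b' j')) := by
    rw [Th_tmul]
    change mk (LD R α.dual W g A i a) (opl (LD R V β h B b j)) = _
    rw [LD_apply, LD_apply, map_sum, LinearMap.sum_apply]
    refine sum_congr rfl fun i' _ => ?_
    rw [map_sum, LinearMap.sum_apply]
    refine sum_congr rfl fun a' _ => ?_
    have e1 : α.dual.m g⁻¹ a' a = α.m g a a' := by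
      change (α.m g⁻¹⁻¹).transpose a' a = _
      rw [inv_inv, Matrix.transpose_apply]
    rw [e1, LinearMap.map_smul, LinearMap.smul_apply, map_sum, map_sum, smul_sum]
    refine sum_congr rfl fun b' _ => ?_
    rw [map_sum, map_sum, smul_sum]
    refine sum_congr rfl fun j' _ => ?_
    rw [LinearMap.map_smul, LinearMap.map_smul, smul_smul]
  rw [hL, hR]
  simp only [smul_sum, smul_smul]
  refine sum_congr rfl fun i' _ => ?_
  calc ∑ j', ∑ a', ∑ b', (W.m g i i' * V.m h⁻¹ j' j * (α.m g a a' * β.m h b b')) •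
        mk (g • A i' a') (opl (h • B b' j'))
      = ∑ a', ∑ j', ∑ b', (W.m g i i' * V.m h⁻¹ j' j * (α.m g a a' * β.m h b b')) •
        mk (g • A i' a') (opl (h • B b' j')) := sum_comm
    _ = ∑ a', ∑ b', ∑ j', (W.m g i i' * V.m h⁻¹ j' j * (α.m g a a' * β.m h b b')) •
        mk (g • A i' a') (opl (h • B b' j')) := sum_congr rfl fun a' _ => sum_comm
    _ = _ := by
        refine sum_congr rfl fun a' _ => sum_congr rfl fun b' _ => sum_congr rfl fun j' _ => ?_
        congr 1
        ring

end act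

section fin

variable {k R p q : Type} [Field k] [Ring R] [Algebra k R]

theorem FM_ext' {x y : FM p q k R} (h : ∀ a b, x a b = y a b) : x = y :=
  funext fun a => funext fun b => h a b

/-- evaluation at a place -/
noncomputable def fev (a : p) (b : q) : FM p q k R →ₗ[k] Gam k R where
  toFun x := x a b
  map_add' _ _ := rfl
  map_smul' _ _ := rfl

theorem FM_sum {ι : Type} (s : Finset ι) (f : ι → FM p q k R) (a : p) (b : q) :
    (∑ i ∈ s, f i) a b = ∑ i ∈ s, f i a b := by
  change fev a b (∑ i ∈ s, f i) = ∑ i ∈ s, fev a b (f i)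
  rw [map_sum]

end fin

theorem qn : StmtQN := by
  intro k G R p q v w _ _ _ _ _ _ D _ _ _ _ _ _ _ _ α β V W X hR hX
  let sub : TensorProduct k (Hm R α.dual W) (Hm R V β) →ₗ[k]
      TensorProduct k (Matrix w p R) (Matrix q v R) :=
    TensorProduct.map (Hm R α.dual W).subtype (Hm R V β).subtype
  let Φ : TensorProduct k (Hm R α.dual W) (Hm R V β) →ₗ[k] (w → v → FM p q k R) :=
    Th k R p q v w ∘ₗ sub
  have hΦt : ∀ (A : Hm R α.dual W) (B : Hm R V β), Φ (A ⊗ₜ B) = Th k R p q v w (A.1 ⊗ₜ B.1) :=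
    fun A B => rfl
  have hmem : ∀ z, Φ z ∈ NN V W X := by
    intro z
    induction z using TensorProduct.induction_on with
    | zero =>
      rw [map_zero]
      exact zero_mem _
    | add x y hx hy =>
      rw [map_add]
      exact add_mem hx hy
    | tmul A B =>
      rw [hΦt]
      intro g h i j
      rw [key α β V W X hX, (mem_Hm_iff _ _ _).1 A.2, (mem_Hm_iff _ _ _).1 B.2]
  have hsm : ∀ (c : EE R W) (z : TensorProduct k (Hm R α.dual W) (Hm R V β)) (i : w) (j : v),
      Φ (c • z) i j = ∑ l, (lf (c.1 i l) : Gam k R) • Φ z l j := by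
    intro c z i j
    induction z using TensorProduct.induction_on with
    | zero =>
      rw [smul_zero, map_zero]
      simp
    | add x y hx hy =>
      rw [smul_add, map_add, map_add, Pi.add_apply, Pi.add_apply, hx, hy, ← sum_add_distrib]
      refine sum_congr rfl fun l _ => ?_
      rw [Pi.add_apply, Pi.add_apply, smul_add]
    | tmul A B =>
      rw [TensorProduct.smul_tmul', hΦt, hΦt]
      refine FM_ext' fun a b => ?_
      rw [FM_sum, Th_tmul]
      have e1 : (c • A).1 i a = ∑ l, c.1 i l * A.1 l a := by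
        rw [smul_Hm, Matrix.mul_apply]
      rw [e1, TensorProduct.sum_tmul]
      refine sum_congr rfl fun l _ => ?_
      rw [FM_smul, Th_tmul]
      unfold lf
      rw [Algebra.TensorProduct.tmul_mul_tmul, one_mul]
  let Φ' : TensorProduct k (Hm R α.dual W) (Hm R V β) →ₗ[EE R W] NN V W X :=
    { toFun := fun z => ⟨Φ z, hmem z⟩
      map_add' := fun x y => Subtype.ext (map_add Φ x y)
      map_smul' := by
        intro c z
        apply Subtype.ext
        funext i j
        rw [RingHom.id_apply, smul_NN]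
        exact hsm c z i j }
  have hinj : Function.Injective Φ := by
    obtain ⟨qA, hqA⟩ := (Hm R α.dual W).subtype.exists_leftInverse_of_injective
      (Hm R α.dual W).ker_subtype
    obtain ⟨qB, hqB⟩ := (Hm R V β).subtype.exists_leftInverse_of_injective (Hm R V β).ker_subtype
    have h1 : TensorProduct.map qA qB ∘ₗ sub = LinearMap.id := by
      change TensorProduct.map qA qB ∘ₗ
        TensorProduct.map (Hm R α.dual W).subtype (Hm R V β).subtype = LinearMap.id
      rw [← TensorProduct.map_comp, hqA, hqB, TensorProduct.map_id]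
    intro x y hxy
    have h2 : sub x = sub y := by
      have h3 := congrArg (Ps k R p q v w) hxy
      change Ps k R p q v w (Th k R p q v w (sub x)) = Ps k R p q v w (Th k R p q v w (sub y)) at h3
      rwa [Ps_Th, Ps_Th] at h3
    have h4 := congrArg (TensorProduct.map qA qB) h2
    have h5 : ∀ z, TensorProduct.map qA qB (sub z) = z := fun z => LinearMap.congr_fun h1 z
    rwa [h5, h5] at h4
  let Lam : G × G → (w → v → FM p q k R) → (w → v → FM p q k R) := fun P Y i j =>
    ∑ a, ∑ b, (W.m P.1 i a * V.m P.2⁻¹ b j) • X.π P (Y a b)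
  have hLadd : ∀ P Y Z, Lam P (Y + Z) = Lam P Y + Lam P Z := by
    intro P Y Z
    funext i j
    change ∑ a, ∑ b, (W.m P.1 i a * V.m P.2⁻¹ b j) • X.π P (Y a b + Z a b) =
      (∑ a, ∑ b, (W.m P.1 i a * V.m P.2⁻¹ b j) • X.π P (Y a b)) +
      ∑ a, ∑ b, (W.m P.1 i a * V.m P.2⁻¹ b j) • X.π P (Z a b)
    simp only [map_add, smul_add, sum_add_distrib]
  have hL0 : ∀ P, Lam P 0 = 0 := by
    intro P
    have h1 := hLadd P 0 0
    rw [add_zero] at h1
    exact (add_eq_left.1 h1.symm)
  have hS : ∀ z : TensorProduct k (Matrix w p R) (Matrix q v R),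
      ∃ z', D.pr.HI (fun P => Lam P (Th k R p q v w z)) (Φ z') := by
    intro z
    induction z using TensorProduct.induction_on with
    | zero =>
      refine ⟨0, ?_⟩
      rw [map_zero, map_zero]
      simp only [hL0]
      exact HI_zero D.pr
    | add x y hx hy =>
      obtain ⟨x', hx'⟩ := hx
      obtain ⟨y', hy'⟩ := hy
      refine ⟨x' + y', ?_⟩
      rw [map_add, map_add]
      simp only [hLadd]
      exact HI_add D.pr hx' hy'
    | tmul A B =>
      obtain ⟨A', hA'⟩ := LD_avg hR α.dual W A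
      obtain ⟨B', hB'⟩ := LD_avg hR V β B
      refine ⟨A' ⊗ₜ B', ?_⟩
      have h1 := HI_map D.pr (Th k R p q v w) (HI_prod D hA' hB')
      have e : (fun P => Lam P (Th k R p q v w (A ⊗ₜ B))) = fun P : G × G =>
          Th k R p q v w (LD R α.dual W P.1 A ⊗ₜ LD R V β P.2 B) := by
        funext P i j
        exact key α β V W X hX P.1 P.2 A B i j
      rw [e, hΦt]
      exact h1
  have hbij : Function.Bijective Φ' := by
    refine ⟨?_, ?_⟩
    · intro x y hxy
      exact hinj (congrArg Subtype.val hxy)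
    · intro Y
      obtain ⟨z', hz'⟩ := hS (Ps k R p q v w Y.1)
      refine ⟨z', Subtype.ext ?_⟩
      change Φ z' = Y.1
      refine HI_uniq D.pr hz' ?_
      have e : (fun P => Lam P (Th k R p q v w (Ps k R p q v w Y.1))) = fun _ => Y.1 := by
        funext P i j
        rw [Th_Ps]
        exact Y.2 P.1 P.2 i j
      rw [e]
      exact HI_const D.pr Y.1
  refine ⟨LinearEquiv.ofBijective Φ' hbij, ?_⟩
  intro a y
  change Φ' (TensorProduct.AlgebraTensorModule.map
        (LinearMap.id : Hm R α.dual W →ₗ[EE R W] Hm R α.dual W) ((HU V β).r a) y) =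
        (NA V W X).r a (Φ' y)
  induction y using TensorProduct.induction_on with
  | zero => rw [map_zero, map_zero, map_zero]
  | add x y hx hy => rw [map_add, map_add, map_add, map_add, hx, hy]
  | tmul A B =>
    rw [TensorProduct.AlgebraTensorModule.map_tmul]
    apply Subtype.ext
    funext i j
    rw [NA_apply]
    change Φ (A ⊗ₜ (HU V β).r a B) i j = ∑ l, (rt (a.1 l j) : Gam k R) • Φ (A ⊗ₜ B) i l
    rw [hΦt, hΦt, HU_apply]
    refine FM_ext' fun a' b => ?_
    rw [FM_sum, Th_tmul, Matrix.mul_apply, Finset.op_sum, TensorProduct.tmul_sum]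
    refine sum_congr rfl fun l _ => ?_
    rw [FM_smul, Th_tmul]
    unfold rt
    rw [Algebra.TensorProduct.tmul_mul_tmul, one_mul, MulOpposite.op_mul]

end Pool.Agent.Helper35.HD
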