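import Pool.Agent.Helper35.HD.GmLem

/-!
# Project HD: packet QS
-/

set_option autoImplicit false
set_option linter.unusedSectionVars false

open Finset
open scoped TensorProduct

namespace Pool.Agent.Helper35.HD

open Pool.Agent.Helper44.HD

theorem qs : StmtQS := by
  intro k G R M F _ _ _ _ _ _ D _ _ _ _ _ _ _ _ X Y q hq hqe hproj
  obtain ⟨s0, hs0⟩ := Module.projective_lifting_property q LinearMap.id hq
  have hs0' : ∀ m, q (s0 m) = m := fun m => LinearMap.congr_fun hs0 m
  let Fm : M → (G × G) → F := fun m p => Y.π p (s0 (X.π p⁻¹ m))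
  have hFm : ∀ m, Fm m ∈ D.pr.RF F := by
    intro m
    obtain ⟨n, f, mm, hf, hfm⟩ := RF_rep D.pr (RF_inv D.pr (X.rat m))
    have e : Fm m = fun p => ∑ i, f i p • Y.π p (s0 (mm i)) := by
      funext p
      change Y.π p (s0 (X.π p⁻¹ m)) = _
      have h1 : X.π p⁻¹ m = ∑ i, f i p • mm i := hfm p
      rw [h1]
      have h2 : s0 (∑ i, f i p • mm i) = ∑ i, f i p • s0 (mm i) := by
        rw [map_sum]
        exact sum_congr rfl fun i _ => map_smul (gl s0) _ _
      rw [h2, map_sum]
      exact sum_congr rfl fun i _ => map_smul _ _ _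
    rw [e]
    exact RF_sum D.pr univ fun i _ => RF_mulf D.pr (hf i) (Y.rat (s0 (mm i)))
  let t : M → F := fun m => D.pr.int (Fm m)
  have ht : ∀ m, D.pr.HI (Fm m) (t m) := fun m => int_spec D.pr (hFm m)
  have hadd : ∀ m m', t (m + m') = t m + t m' := by
    intro m m'
    refine HI_uniq D.pr (ht (m + m')) ?_
    have e : Fm (m + m') = fun p => Fm m p + Fm m' p := by
      funext p
      change Y.π p (s0 (X.π p⁻¹ (m + m'))) = Y.π p (s0 (X.π p⁻¹ m)) + Y.π p (s0 (X.π p⁻¹ m'))
      rw [map_add, map_add, map_add]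
    rw [e]
    exact HI_add D.pr (ht m) (ht m')
  have hsmul : ∀ (c : Gam k R) m, t (c • m) = c • t m := by
    intro c m
    refine HI_uniq D.pr (ht (c • m)) ?_
    let l : F →ₗ[k] F :=
      { toFun := fun x => c • x
        map_add' := fun x y => smul_add c x y
        map_smul' := fun a x => gsmul_comm a c x }
    have e : Fm (c • m) = fun p => l (Fm m p) := by
      funext p
      change Y.π p (s0 (X.π p⁻¹ (c • m))) = c • Y.π p (s0 (X.π p⁻¹ m))
      rw [X.semi, map_smul, Y.semi, gm_inv]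
    rw [e]
    exact HI_map D.pr l (ht m)
  let T : M →ₗ[Gam k R] F :=
    { toFun := t
      map_add' := hadd
      map_smul' := hsmul }
  refine ⟨T, ?_, ?_⟩
  · intro m
    change q (t m) = m
    have h1 := HI_map D.pr (gl q) (ht m)
    have e : (fun p => gl q (Fm m p)) = fun _ => m := by
      funext p
      change q (Y.π p (s0 (X.π p⁻¹ m))) = m
      rw [hqe, hs0', ← Module.End.mul_apply, ← map_mul, mul_inv_cancel, map_one]
      rfl
    rw [e] at h1
    exact HI_uniq D.pr h1 (HI_const D.pr m)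
  · intro h m
    change t (X.π h m) = Y.π h (t m)
    refine HI_uniq D.pr (ht (X.π h m)) ?_
    have e : Fm (X.π h m) = fun p => Y.π h (Fm m (h⁻¹ * p)) := by
      funext p
      change Y.π p (s0 (X.π p⁻¹ (X.π h m))) = Y.π h (Y.π (h⁻¹ * p) (s0 (X.π (h⁻¹ * p)⁻¹ m)))
      rw [← Module.End.mul_apply, ← map_mul, ← Module.End.mul_apply, ← map_mul,
        mul_inv_cancel_left, mul_inv_rev, inv_inv]
    rw [e]
    exact HI_map D.pr (Y.π h) (HI_left D.pr (hFm m) (ht m) h⁻¹)

end Pool.Agent.Helper35.HD
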