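import Pool.Agent.Helper80.HD.GoalsA

set_option autoImplicit false

open MvPolynomial Filter Topology

noncomputable section

namespace Pool.Agent.Helper35.HD

open _root_.Pool.Agent.Helper80.HD

theorem iSup_support {K : Type} [Field K] {ι : Type} (v : AbsoluteValue K ℝ) (x : ι → K)
    (hf : (Function.support x).Finite) (hx : x ≠ 0) :
    ⨆ i, v (x i) = ⨆ i : Function.support x, v (x i) := by
  obtain ⟨i0, hi0⟩ := Function.ne_iff.1 hx
  have : Nonempty ι := ⟨i0⟩
  have : Nonempty ↥(Function.support x) := ⟨⟨i0, hi0⟩⟩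
  have : Finite ↥(Function.support x) := hf.to_subtype
  have hb : BddAbove (Set.range fun i => v (x i)) := by
    refine ((hf.image fun i => v (x i)).union (Set.finite_singleton (0 : ℝ))).bddAbove.mono ?_
    rintro _ ⟨i, rfl⟩
    by_cases h : x i = 0
    · right
      simp [h]
    · left
      exact ⟨i, h, rfl⟩
  apply le_antisymm
  · refine ciSup_le fun i => ?_
    by_cases h : x i = 0
    · rw [h, map_zero]
      exact Real.iSup_nonneg fun i => v.nonneg _
    · exact le_ciSup (f := fun i : Function.support x => v (x i)) (Finite.bddAbove_range _) ⟨i, h⟩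
  · exact ciSup_le fun i => le_ciSup (f := fun i => v (x i)) hb i.1

theorem mulHeight_support {K : Type} [Field K] [NumberField K] {ι : Type} (x : ι → K)
    (hf : (Function.support x).Finite) :
    Height.mulHeight x = Height.mulHeight (fun i : Function.support x => x i) := by
  by_cases hx : x = 0
  · subst hx
    have : (fun i : Function.support (0 : ι → K) => (0 : ι → K) i) = 0 := rfl
    rw [this, Height.mulHeight_zero, Height.mulHeight_zero]
  · have hx' : (fun i : Function.support x => x i) ≠ 0 := by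
      obtain ⟨i0, hi0⟩ := Function.ne_iff.1 hx
      exact Function.ne_iff.2 ⟨⟨i0, hi0⟩, hi0⟩
    rw [Height.mulHeight_eq hx, Height.mulHeight_eq hx']
    congr 1
    · congr 1
      refine Multiset.map_congr rfl fun v _ => iSup_support v x hf hx
    · exact finprod_congr fun v => iSup_support v.val x hf hx

/-- invariance of the height under reindexing and scaling -/
theorem lh_equiv {K : Type} [Field K] [NumberField K] {σ τ : Type} (P : MvPolynomial σ K)
    (Q : MvPolynomial τ K) (E : (σ →₀ ℕ) ≃ (τ →₀ ℕ)) {c : K} (hc : c ≠ 0)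
    (h : ∀ d, Q.coeff (E d) = c * P.coeff d) : lh Q = lh P := by
  unfold lh Finsupp.logHeight
  rw [← Height.mulHeight_comp_equiv E]
  have h2 : (⇑(AddMonoidAlgebra.coeff Q) ∘ E) = c • ⇑(AddMonoidAlgebra.coeff P) := by
    funext d
    exact h d
  have hf : (Function.support ⇑(AddMonoidAlgebra.coeff P)).Finite := Finsupp.hasFiniteSupport _
  have hs : Function.support (c • ⇑(AddMonoidAlgebra.coeff P)) =
      Function.support ⇑(AddMonoidAlgebra.coeff P) := by
    ext d
    simp [hc]
  have : Finite ↥(Function.support ⇑(AddMonoidAlgebra.coeff P)) := hf.to_subtype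
  rw [h2, mulHeight_support _ hf, mulHeight_support _ (by rw [hs]; exact hf), hs]
  congr 1
  exact Height.mulHeight_smul_eq_mulHeight
    (fun i : Function.support ⇑(AddMonoidAlgebra.coeff P) => (AddMonoidAlgebra.coeff P) i) hc

theorem lh_C_mul {K : Type} [Field K] [NumberField K] {σ : Type} (P : MvPolynomial σ K) {c : K}
    (hc : c ≠ 0) : lh (C c * P) = lh P :=
  lh_equiv P (C c * P) (Equiv.refl _) hc (fun d => by simp [coeff_C_mul])

theorem lh_rename {K : Type} [Field K] [NumberField K] {σ : Type} (e : σ ≃ σ)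
    (P : MvPolynomial σ K) : lh (rename e P) = lh P := by
  refine lh_equiv P (rename e P) (Finsupp.domCongr e).toEquiv one_ne_zero (fun d => ?_)
  have : (Finsupp.domCongr e : (σ →₀ ℕ) ≃+ (σ →₀ ℕ)).toEquiv d = Finsupp.mapDomain e d := by
    simp [Finsupp.domCongr, Finsupp.equivMapDomain_eq_mapDomain]
  rw [this, one_mul]
  exact coeff_rename_mapDomain e e.injective P d

theorem bdeg_C_mul {K : Type} [Field K] {m N : ℕ} (i : Fin m)
    (P : MvPolynomial (Fin m × Fin (N + 1)) K) {c : K} (hc : c ≠ 0) :
    bdeg i (C c * P) = bdeg i P := by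
  unfold bdeg
  congr 1
  ext s
  simp [mem_support_iff, coeff_C_mul, hc]

/-- the permutation of the blocks of variables -/
def blk {m N : ℕ} (σ : Equiv.Perm (Fin m)) : (Fin m × Fin (N + 1)) ≃ (Fin m × Fin (N + 1)) :=
  σ.prodCongr (Equiv.refl _)

theorem bdeg_rename {K : Type} [Field K] {m N : ℕ} (σ : Equiv.Perm (Fin m)) (i : Fin m)
    (P : MvPolynomial (Fin m × Fin (N + 1)) K) :
    bdeg (σ i) (rename (blk (N := N) σ) P) = bdeg i P := by
  classical
  unfold bdeg
  rw [support_rename_of_injective (blk σ).injective, Finset.sup_image]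
  congr 1
  funext s
  simp only [Function.comp_apply]
  refine Finset.sum_congr rfl fun j _ => ?_
  have : ((σ i, j) : Fin m × Fin (N + 1)) = blk σ (i, j) := rfl
  rw [this, Finsupp.mapDomain_apply (blk σ).injective]

theorem vanishes_rename (K : Type) [Field K] [Algebra K ℂ] {m N : ℕ} (σ : Equiv.Perm (Fin m))
    (Z : Fin m → Fin (N + 1) → ℂ) (Q : MvPolynomial (Fin m × Fin (N + 1)) K) :
    Vanishes K (Z ∘ σ) Q ↔ Vanishes K Z (rename (blk (N := N) σ) Q) := by
  constructor
  · intro h u hu
    rw [aeval_rename]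
    apply h
    intro i
    exact hu (σ i)
  · intro h u hu
    have := h (u ∘ (blk σ).symm) (by
      intro i
      have := hu (σ.symm i)
      simpa [blk] using this)
    rw [aeval_rename] at this
    have h2 : (u ∘ (blk (N := N) σ).symm) ∘ (blk σ) = u := by
      funext q
      simp
    rwa [h2] at this

theorem ratioFields_comp (K : Type) [Field K] [Algebra K ℂ] {m N : ℕ} (σ : Equiv.Perm (Fin m))
    (Z : Fin m → Fin (N + 1) → ℂ) : ratioFields K (Z ∘ σ) = ratioFields K Z := by
  unfold ratioFields
  exact Equiv.iSup_comp (g := fun i => ratioField K (Z i)) σ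

theorem sym (hRES : S_RES) : S_SYM := by
  intro K _ _ _ F k N Z σ hFG htr hbig
  obtain ⟨hR, hRirr, -⟩ := hRES K F k N Z hFG htr hbig
  obtain ⟨hR', hR'irr, -⟩ := hRES K F k N (Z ∘ σ) hFG htr (fun i => hbig (σ i))
  set R := resForm K Z with hRdef
  set R' := resForm K (Z ∘ σ) with hR'def
  have h1 : R ∣ rename (blk (N := N) σ) R' := by
    rw [hR, ← vanishes_rename, ← hR']
  have h2 : R' ∣ rename (blk (N := N) σ).symm R := by
    rw [hR', vanishes_rename, ← hR, rename_rename]
    simp
  have h3 : rename (blk (N := N) σ) R' ∣ R := by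
    have := (rename (R := K) (blk (N := N) σ)).toRingHom.map_dvd h2
    simpa [rename_rename] using this
  obtain ⟨v, hv⟩ : Associated R (rename (blk (N := N) σ) R') := associated_of_dvd_dvd h1 h3
  obtain ⟨c, hc, hvc⟩ : ∃ c : K, c ≠ 0 ∧ (v : MvPolynomial (Fin (k + 1) × Fin (N + 1)) K) = C c := by
    have hu : IsUnit (v : MvPolynomial (Fin (k + 1) × Fin (N + 1)) K) := v.isUnit
    rw [MvPolynomial.isUnit_iff_eq_C_of_isReduced] at hu
    obtain ⟨c, hc, h⟩ := hu
    exact ⟨c, hc.ne_zero, h⟩
  set n := (ratioFields K Z).relfinrank F with hn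
  have hcyc : cyc K F Z = R ^ n := rfl
  have hcyc' : cyc K F (Z ∘ σ) = R' ^ n := by
    unfold cyc
    rw [ratioFields_comp]
  have hkey : rename (blk (N := N) σ) (R' ^ n) = C (c ^ n) * R ^ n := by
    rw [map_pow, ← hv, hvc, mul_pow, ← C_pow, mul_comm]
  have hcn : c ^ n ≠ 0 := pow_ne_zero _ hc
  rw [hcyc, hcyc']
  constructor
  · rw [← lh_rename (blk (N := N) σ), hkey, lh_C_mul _ hcn]
  · intro i
    rw [← bdeg_rename σ i, hkey, bdeg_C_mul _ _ hcn]

end Pool.Agent.Helper35.HD
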