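import Pool.Agent.Helper44.HD.GoalsH
import Pool.Agent.Helper44.HD.ExRl

/-!
# Project HD: packet TT
-/

set_option autoImplicit false

namespace Pool.Agent.Helper35.HD

open Pool.Agent.Helper44.HD

theorem tt : StmtAD → StmtEQ → StmtTT := by
  intro hAD hEQ k E A N' N N'' _ _ _ _ _ _ _ _ _ _ _ _ _ _ _ _ _ _ X' X X'' f g hf hg hfg hfr hgr
    hfin' hproj' hfin'' hproj''
  refine ⟨?_, ?_⟩
  · intro h' h'' κ _ _ i p hip n φ hφ
    obtain ⟨m', i', p', hip'⟩ := exists_rl E N' hfin' hproj'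
    obtain ⟨m'', i'', p'', hip''⟩ := exists_rl E N'' hfin'' hproj''
    obtain ⟨i0, p0, hip0, hcob⟩ := hAD k E A N' N N'' (Fin m') (Fin m'') X' X X'' f g hf hg hfg hfr
      hgr hproj'' i' p' i'' p'' hip' hip''
    have h1 := hcob n φ hφ
    have h2 := h' (Fin m') i' p' hip' n φ hφ
    have h3 := h'' (Fin m'') i'' p'' hip'' n φ hφ
    have h4 := hEQ k E A N (Fin m' ⊕ Fin m'') κ X i0 p0 i p hip0 hip n φ hφ
    refine ((h1.addc (h2.addc h3)).addc h4).congr fun x => ?_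
    ring
  · intro h' h κ _ _ i'' p'' hip'' n φ hφ
    obtain ⟨m', i', p', hip'⟩ := exists_rl E N' hfin' hproj'
    obtain ⟨i0, p0, hip0, hcob⟩ := hAD k E A N' N N'' (Fin m') κ X' X X'' f g hf hg hfg hfr
      hgr hproj'' i' p' i'' p'' hip' hip''
    have h1 := hcob n φ hφ
    have h2 := h' (Fin m') i' p' hip' n φ hφ
    have h3 := h (Fin m' ⊕ κ) i0 p0 hip0 n φ hφ
    refine ((h3.subc h2).subc h1).congr fun x => ?_
    ring

end Pool.Agent.Helper35.HD
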